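import Mathlib
import Pool.Agent.TH993.SP.Final
import Pool.Agent.TH241.SP_FRZ
import Pool.Agent.TH889.SP_AREA
import Pool.Agent.TH645.SP_INT
import Pool.Agent.TH378.SP_CONC
import Pool.Agent.TH263.SP_MAX
import Pool.Agent.TH889.SP_POLY
import Pool.Agent.TH624.SP_POL
import Pool.Agent.TH384.SP_PARAM
import Pool.Agent.TH874.SP_BALL
import Pool.Agent.TH491.SP_SQ
import Pool.Agent.TH874.SP_GN
import Pool.Agent.TH509.SP_PATH

/-!
# The sprawl conjecture in the plane

Lower bound: in the parametrisation `X` of the unit circle by the area let `D (a, b)` be the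
determinant of `X a` and `X b`. For the geometric means `V_m` of the numbers `D (x_i, x_(i + m))`
over `n` equidistributed points, the Pluecker relations give `V_m ^ 2 ≥ V_(m-1) V_(m+1) + V_1 ^ 2`
and hence `V_m ≥ V_1 sin (m π / n) / sin (π / n)`; so the mean area of the inscribed parallelograms
is at least the one of the circle, and the sprawl is bounded below by this mean area.

Upper bound: every planar norm is a mean of functionals `|wd v (X c)|`, `a ↦ wd (X c) (X a)` is
concave on half of the circle, and for a concave function on an interval the mean of the maximum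
of two independent values is at most `4 / 3` times the mean.
-/

set_option autoImplicit false

namespace Pool.Agent.Results.MP_c499fd_gt.Planar

open Pool.Agent.TH993.SP

/-- The sprawl conjecture for `d = 2`: the values over all symmetric convex bodies `K` in the plane
of the mean `K`-norm distance `E K` between two cone-measure-random points of the boundary form
exactly the interval from the value of the disc to the value of the square. -/
theorem result :
    ∀ E : Set (EuclideanSpace ℝ (Fin 2)) → ℝ,
      E = (fun K : Set (EuclideanSpace ℝ (Fin 2)) =>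
        (∫ x in K, ∫ y in K,
            gauge K ((gauge K x)⁻¹ • x - (gauge K y)⁻¹ • y)) /
          ((MeasureTheory.volume K).toReal ^ 2)) →
      {e : ℝ | ∃ K : Set (EuclideanSpace ℝ (Fin 2)),
          Convex ℝ K ∧ IsCompact K ∧ (interior K).Nonempty ∧
          (∀ x ∈ K, -x ∈ K) ∧ e = E K} =
        Set.Icc (E (Metric.closedBall (0 : EuclideanSpace ℝ (Fin 2)) 1))
          (E {x : EuclideanSpace ℝ (Fin 2) |
              ∀ i : Fin 2, |EuclideanSpace.proj (𝕜 := ℝ) i x| ≤ 1}) := by
  rintro E rfl
  exact main Pool.Agent.TH624.SPPOL.POL Pool.Agent.TH384.SPParam.PARAM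
    Pool.Agent.TH263.SPMAX.MAX Pool.Agent.TH378.SPC.CONC Pool.Agent.TH889.SP_POLY.POLY
    (Pool.Agent.TH889.SP_AREA.AREA Pool.Agent.TH241.SPF.FRZ) Pool.Agent.TH645.SP.INT
    Pool.Agent.TH874.SPB.BALL Pool.Agent.TH491.SPSQ.SQ Pool.Agent.TH874.SPG.GN
    Pool.Agent.TH509.SPPath.PATH

end Pool.Agent.Results.MP_c499fd_gt.Planar
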